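import Mathlib

/-!
Definitions for the results on Newton polyhedra and Bernstein-Sato polynomials.
-/

namespace Pool.Agent.helper14.Newton

open Filter Topology MvPolynomial

/-- The operator `∇_i` on functions: `(∇_i g) f ^ s = ∂_i (g f ^ s)`, that is
`∇_i g = ∂_i g + s (∂_i f / f) g`. -/
noncomputable def nabla {n : ℕ} (f : (Fin n → ℂ) → ℂ) (s : ℂ) (i : Fin n)
    (g : (Fin n → ℂ) → ℂ) : (Fin n → ℂ) → ℂ :=
  fun z => fderiv ℂ g z (Pi.single i 1) + s * (fderiv ℂ f z (Pi.single i 1) / f z) * g z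

/-- `IsBernstein f b`: there is a differential operator `P(s) = ∑ a_t(z) s^j ∂_w` with coefficients
`a_t` holomorphic near `0` (the sum is over finitely many pairs `t = (w, j)` of a word `w` in the
variables and an exponent `j`) such that `P(s) f ^ (s + 1) = b(s) f ^ s` near `0`, where
`∂_w (f ^ (s+1)) = (∇_w f) f ^ s`. -/
def IsBernstein {n : ℕ} (f : (Fin n → ℂ) → ℂ) (b : Polynomial ℂ) : Prop :=
  ∃ (T : Finset (List (Fin n) × ℕ)) (a : List (Fin n) × ℕ → (Fin n → ℂ) → ℂ),
    (∀ t ∈ T, AnalyticAt ℂ (a t) 0) ∧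
    ∀ᶠ z in 𝓝 (0 : Fin n → ℂ), f z ≠ 0 → ∀ s : ℂ,
      ∑ t ∈ T, a t z * s ^ t.2 * (t.1.foldr (nabla f s) f) z = b.eval s

/-- `f` is convenient: for every `i` it has a term `x_i ^ m`. -/
def Convenient {n : ℕ} (f : MvPolynomial (Fin n) ℂ) : Prop :=
  ∀ i : Fin n, ∃ m : ℕ, coeff (Finsupp.single i m) f ≠ 0

/-- The value of the weight `w` on the exponent `v`. -/
def wt {n : ℕ} (w : Fin n → ℕ) (v : Fin n →₀ ℕ) : ℕ := ∑ i, w i * v i

open Classical in
/-- The exponents of `f` on the face of the Newton polyhedron of `f` on which the weight `w` is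
minimal: the exponents `v` of `f` with `w · v ≤ w · u` for all exponents `u` of `f`. -/
noncomputable def face {n : ℕ} (f : MvPolynomial (Fin n) ℂ) (w : Fin n → ℕ) :
    Finset (Fin n →₀ ℕ) :=
  f.support.filter fun v => ∀ u ∈ f.support, wt w v ≤ wt w u

/-- The exponents in `F` are linearly independent. -/
def Indep {n : ℕ} (F : Finset (Fin n →₀ ℕ)) : Prop :=
  LinearIndependent ℚ (fun (v : F) (i : Fin n) => (((v : Fin n →₀ ℕ) i : ℕ) : ℚ))

/-- A set of exponents is `B1` if some coordinate is equal to `1` on one of them and to `0` on all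
the others. -/
def IsB1 {n : ℕ} (F : Finset (Fin n →₀ ℕ)) : Prop :=
  ∃ i : Fin n, ∃ v ∈ F, v i = 1 ∧ ∀ u ∈ F, u ≠ v → u i = 0

end Pool.Agent.helper14.Newton
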